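import Pool.Agent.W222.ABCD.NFMain

/-!
# The exceptional set in the `n`-term abc conjecture over number fields, `n ≥ 4`

For every number field `K` and every `n ≥ 4` the degree of an exceptional set `Z(K, ε, n)` grows
faster than every power of `1 / ε`. The points are
`(X ^ 2 / 4, - Y ^ 2 / 4, - t ^ (2 m), λ_4, …, λ_n)` with `∑ λ_i = 1`, `t = 2 ^ q`, `m` odd, where
`X = A + B`, `Y = A - B` and `A * B = t ^ (2 m) - 1` is one of the `2 ^ τ(m)` splittings of
`t ^ (2 m) - 1` into two monic factors of degree `m`, exactly one of each pair `Φ_e`, `Φ_{2 e}`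
(`e ∣ m`) going to `A`. Then `X` is divisible by `t` and `Y` has degree `≤ m - 1`, so that
`h(P) ≥ 2 m log t - O(1)` and `rad(P) ≤ (2 m - 2) log t + O(1)`.
-/

set_option autoImplicit false

namespace Pool.Agent.Results.MP_7475bd_nt.ExceptionalSetGrowth

open NumberField

/-- `h(P)` for a point `P` with homogeneous coordinates `z` in the number field `K`: Mathlib's
logarithmic height of `z` (the sum over all places `v` of `n_v log max |z_j|_v`), divided by
`[K : ℚ]` -/
noncomputable def height {K : Type} [Field K] [NumberField K] {n : ℕ} (z : Fin n → K) : ℝ :=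
  Height.logHeight z / Module.finrank ℚ K

open Classical in
/-- `rad(P)`: `1 / [K : ℚ]` times the sum of `log N(𝔭)` over the nonzero primes `𝔭` of `𝓞 K` at
which the orders of the coordinates are not all equal -/
noncomputable def radical {K : Type} [Field K] [NumberField K] {n : ℕ} (z : Fin n → K) : ℝ :=
  (∑ᶠ v : IsDedekindDomain.HeightOneSpectrum (𝓞 K),
    if ∀ i j, v.valuation K (z i) = v.valuation K (z j) then 0
    else Real.log (Ideal.absNorm v.asIdeal)) / Module.finrank ℚ K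

/-- For every number field `K`, every `n ≥ 4`, every extension field `L` of `K`, every form `F` of
degree `D` in `n` variables over `L` which does not vanish identically on the hyperplane
`Z_1 + ⋯ + Z_n = 0`, and every `C`, there is a point `P` of the hyperplane with nonzero coordinates
in `K`, with `F(P) ≠ 0` and `h(P) ≥ (1 + ε) rad(P) + C`. -/
def Escapes (ε : ℝ) (D : ℕ) : Prop :=
  ∀ (K : Type) [Field K] [NumberField K] (n : ℕ), 4 ≤ n →
    ∀ (L : Type) [Field L] [Algebra K L] (F : MvPolynomial (Fin n) L), F.IsHomogeneous D →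
      (∃ w : Fin n → L, ∑ i, w i = 0 ∧ MvPolynomial.eval w F ≠ 0) →
        ∀ C : ℝ, ∃ z : Fin n → K, (∀ i, z i ≠ 0) ∧ ∑ i, z i = 0 ∧
          MvPolynomial.eval (fun i => algebraMap K L (z i)) F ≠ 0 ∧
          (1 + ε) * radical z + C ≤ height z

theorem escapes {m D : ℕ} (hm : Odd m) {ε : ℝ} (hε : 0 < ε) (hεm : ε * (m - 1) < 1)
    (hD : D < 2 ^ (m.divisors.card - 1)) : Escapes ε D := by
  intro K _ _ n hn L _ _ F hF hw C
  obtain ⟨w, hw1, hw2⟩ := hw
  obtain ⟨k, rfl⟩ : ∃ k, n = k + 3 := ⟨n - 3, by omega⟩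
  exact Pool.Agent.W222.ABCD.nf_main (by omega) hm hε hεm F hF w hw1 hw2 hD C

theorem card_divisors_pow (j : ℕ) : (15 ^ j).divisors.card = (j + 1) * (j + 1) := by
  have h : (15 : ℕ) ^ j = 3 ^ j * 5 ^ j := by
    rw [← mul_pow]
    norm_num
  rw [h, Nat.Coprime.card_divisors_mul
    (Nat.Coprime.pow j j (by norm_num : Nat.Coprime 3 5)),
    Nat.divisors_prime_pow (by norm_num), Nat.divisors_prime_pow (by norm_num)]
  simp

/-- **Main theorem.** Over every number field and for every `n ≥ 4`, the points violating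
`h(P) < (1 + ε) rad(P) + C` lie on no hypersurface of degree `< 2 ^ (τ(m) - 1)` not containing
the hyperplane, for any odd `m < 1 + 1 / ε` (`τ(m)` the number of divisors of `m`). In particular
the degree of such a hypersurface grows faster than every power of `1 / ε`. -/
theorem result :
    (∀ m : ℕ, Odd m → ∀ ε : ℝ, 0 < ε → ε * (m - 1) < 1 →
      ∀ D : ℕ, D < 2 ^ (m.divisors.card - 1) → Escapes ε D) ∧
    (∀ A : ℝ, ∃ ε₀ : ℝ, 0 < ε₀ ∧ ∀ ε : ℝ, 0 < ε → ε < ε₀ →
      ∀ D : ℕ, (D : ℝ) ≤ ε ^ (-A) → Escapes ε D) := by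
  refine ⟨fun m hm ε hε hεm D hD => escapes hm hε hεm hD, fun A => ?_⟩
  obtain ⟨a, ha⟩ := exists_nat_gt A
  refine ⟨((15 : ℝ) ^ (4 * a + 2))⁻¹, by positivity, fun ε hε hlt D hD => ?_⟩
  have hpow1 : (1 : ℝ) ≤ 15 ^ (4 * a + 2) := one_le_pow₀ (by norm_num)
  have hinv : (15 : ℝ) ^ (4 * a + 2) < ε⁻¹ := by
    rw [lt_inv_comm₀ (by positivity) hε]
    exact hlt
  have hinv1 : 1 ≤ ε⁻¹ := hpow1.trans hinv.le
  obtain ⟨j, hj1, hj2⟩ := exists_nat_pow_near hinv1 (by norm_num : (1 : ℝ) < 15)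
  have hj : 4 * a + 2 < j + 1 := by
    have := hinv.trans hj2
    exact (pow_lt_pow_iff_right₀ (by norm_num : (1 : ℝ) < 15)).1 this
  have hodd : Odd (15 ^ j) := Odd.pow (by decide)
  refine escapes hodd hε ?_ ?_
  · push_cast
    have h1 : ε * 15 ^ j ≤ 1 := by
      calc ε * 15 ^ j ≤ ε * ε⁻¹ := by gcongr
        _ = 1 := mul_inv_cancel₀ hε.ne'
    nlinarith
  · rw [card_divisors_pow]
    have h1 : (D : ℝ) ≤ (ε⁻¹) ^ a := by
      refine hD.trans ?_
      rw [Real.rpow_neg hε.le, ← Real.inv_rpow hε.le, ← Real.rpow_natCast]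
      exact Real.rpow_le_rpow_of_exponent_le hinv1 ha.le
    have h2 : (ε⁻¹) ^ a ≤ ((15 : ℝ) ^ (j + 1)) ^ a := pow_le_pow_left₀ (by positivity) hj2.le a
    have h3 : D ≤ (15 ^ (j + 1)) ^ a := by exact_mod_cast h1.trans h2
    have h4 : (15 ^ (j + 1)) ^ a ≤ 2 ^ (4 * (j + 1) * a) := by
      have h5 : 15 ^ (j + 1) ≤ 2 ^ (4 * (j + 1)) := by
        rw [pow_mul]
        exact Nat.pow_le_pow_left (by norm_num) _
      rw [pow_mul]
      exact Nat.pow_le_pow_left h5 a
    have h6 : 4 * (j + 1) * a < (j + 1) * (j + 1) - 1 := by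
      have h7 : (4 * a + 2) * (j + 1) ≤ (j + 1) * (j + 1) := Nat.mul_le_mul_right _ hj.le
      have h8 : (4 * a + 2) * (j + 1) = 4 * (j + 1) * a + 2 * (j + 1) := by ring
      omega
    exact lt_of_le_of_lt (h3.trans h4) (Nat.pow_lt_pow_right (by norm_num) h6)

end Pool.Agent.Results.MP_7475bd_nt.ExceptionalSetGrowth
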