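import Pool.Agent.W222.ABCD.FF

/-!
# The exceptional set in the `n`-term abc conjecture over `k(t)`, `n ≥ 4`

Over the rational function field `k(t)`, `k` algebraically closed of characteristic `0`, the degree
of an exceptional set `Z(ε)` grows exponentially in `1 / ε`. The points are
`(X ^ 2 / 4, - Y ^ 2 / 4, - u ^ (2 m), λ_4, …, λ_n)` with `∑ λ_i = 1`, `u = t ^ q`, `m` odd, where
`X = A + B`, `Y = A - B` and `A * B = u ^ (2 m) - 1` is one of the `2 ^ m` splittings of
`u ^ (2 m) - 1` in which for each `m`-th root of unity `ζ` one of `u - ζ`, `u + ζ` divides `A` and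
the other one divides `B`.
-/

set_option autoImplicit false

namespace Pool.Agent.Results.MP_7475bd_nt.FunctionFieldExceptionalSet

/-- the order of `z` at the place `a ∈ k` of `k(t)` -/
noncomputable def ordAt {k : Type} [Field k] (a : k) (z : RatFunc k) : ℤ :=
  (z.num.rootMultiplicity a : ℤ) - z.denom.rootMultiplicity a

/-- `h(P)` for a point `P` with homogeneous coordinates `z` in `k(t)`, `k` algebraically closed:
the sum over the places `v ∈ k ∪ {∞}` of `max_j (- ord_v z_j)`; here `- ord_∞` is the degree -/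
noncomputable def height {k : Type} [Field k] {n : ℕ} (z : Fin n → RatFunc k) : ℤ :=
  (∑ᶠ a : k, ⨆ j, -ordAt a (z j)) + ⨆ j, (z j).intDegree

open Classical in
/-- `rad(P)`: the number of places `v ∈ k ∪ {∞}` at which the `ord_v z_j` are not all equal -/
noncomputable def radical {k : Type} [Field k] {n : ℕ} (z : Fin n → RatFunc k) : ℕ :=
  {a : k | ¬ ∀ i j, ordAt a (z i) = ordAt a (z j)}.ncard +
    if ∀ i j, (z i).intDegree = (z j).intDegree then 0 else 1

/-- **Main theorem.** Let `k` be an algebraically closed field of characteristic `0`, `n ≥ 4`,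
`ε > 0`, `L` an extension field of `k(t)` and `F` a form over `L` of degree `D < 2 ^ (1 / ε - 2)`
in `n` variables which does not vanish identically on the hyperplane `Z_1 + ⋯ + Z_n = 0`. Then for
every `C` there is a point `P` of the hyperplane with nonzero coordinates in `k(t)`, with
`F(P) ≠ 0` and `h(P) ≥ (1 + ε) rad(P) + C`. -/
theorem result (k : Type) [Field k] [IsAlgClosed k] [CharZero k] (n : ℕ) (hn : 4 ≤ n)
    (ε : ℝ) (hε : 0 < ε) (D : ℕ) (hD : (D : ℝ) < 2 ^ (1 / ε - 2))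
    (L : Type) [Field L] [Algebra (RatFunc k) L] (F : MvPolynomial (Fin n) L)
    (hF : F.IsHomogeneous D)
    (hH : ∃ w : Fin n → L, ∑ i, w i = 0 ∧ MvPolynomial.eval w F ≠ 0) (C : ℝ) :
    ∃ z : Fin n → RatFunc k, (∀ i, z i ≠ 0) ∧ ∑ i, z i = 0 ∧
      MvPolynomial.eval (fun i => algebraMap (RatFunc k) L (z i)) F ≠ 0 ∧
      (1 + ε) * radical z + C ≤ height z := by
  obtain ⟨w, hw1, hw2⟩ := hH
  obtain ⟨K', rfl⟩ : ∃ K', n = K' + 3 := ⟨n - 3, by omega⟩
  -- `j` with `2 j < 1 / ε ≤ 2 j + 2`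
  obtain ⟨j, hj1, hj2⟩ : ∃ j : ℕ, 2 * (j : ℝ) < 1 / ε ∧ 1 / ε ≤ 2 * j + 2 := by
    have hpos : 0 < 1 / ε / 2 := by positivity
    have h1 : 0 < ⌈1 / ε / 2⌉₊ := Nat.ceil_pos.2 hpos
    have h2 : (⌈1 / ε / 2⌉₊ : ℝ) < 1 / ε / 2 + 1 := Nat.ceil_lt_add_one hpos.le
    have h3 : 1 / ε / 2 ≤ (⌈1 / ε / 2⌉₊ : ℝ) := Nat.le_ceil _
    refine ⟨⌈1 / ε / 2⌉₊ - 1, ?_, ?_⟩
    · rw [Nat.cast_sub h1, Nat.cast_one]
      linarith
    · rw [Nat.cast_sub h1, Nat.cast_one]
      linarith
  have hm : Odd (2 * j + 1) := ⟨j, rfl⟩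
  have hεm : ε * (((2 * j + 1 : ℕ) : ℝ) - 1) < 1 := by
    push_cast
    have : ε * (2 * (j : ℝ)) < ε * (1 / ε) := mul_lt_mul_of_pos_left hj1 hε
    rw [mul_one_div_cancel hε.ne'] at this
    linarith
  have hD' : D < 2 ^ (2 * j + 1 - 1) := by
    have h1 : (2 : ℝ) ^ (1 / ε - 2) ≤ (2 : ℝ) ^ ((2 * j : ℕ) : ℝ) := by
      refine Real.rpow_le_rpow_of_exponent_le (by norm_num) ?_
      push_cast
      linarith
    rw [Real.rpow_natCast] at h1
    have h2 : (D : ℝ) < ((2 ^ (2 * j) : ℕ) : ℝ) := by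
      push_cast
      linarith
    exact_mod_cast h2
  exact Pool.Agent.W222.ABCD.FF.ff_main (by omega) hm hε hεm F hF w hw1 hw2 hD' C

end Pool.Agent.Results.MP_7475bd_nt.FunctionFieldExceptionalSet
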